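import Mathlib
import Pool.Agent.R127.ThetaDefs
import Pool.Agent.R127.ThetaGraph

/-!
Bounded theta-graph counts do not bound the path moments: for every `l ≥ 3` there are graphs `G_n`
(`K_{2,d}` with a pendant path of length `l - 2` and isolated vertices, `p = d / n`,
`d ≈ n^θ` with `1 / l < θ < 1 / (l - 1)`) that satisfy (A), (B), (C) and have bounded normalised
counts of theta graphs, but violate (D).
-/

namespace Pool.Agent.Results.MP_cf0832_co.ThetaMoments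

open Finset MeasureTheory Filter Topology Pool.Agent.R127.Theta

/-- the exponent -/
noncomputable def θ (l : ℕ) : ℝ := (2 * l - 1) / (2 * l * (l - 1))

/-- the parameter `d` -/
noncomputable def dd (l n : ℕ) : ℕ := ⌊(n : ℝ) ^ θ l⌋₊

/-- the normalising function -/
noncomputable def pp (l n : ℕ) : ℝ := if n = 0 then 1 else (dd l n : ℝ) / n

/-- the graphs -/
noncomputable def GG (l n : ℕ) : SimpleGraph (Fin n) := Gr l (dd l n) n

variable {l : ℕ}

theorem l_real (hl : 3 ≤ l) : (3 : ℝ) ≤ l := by exact_mod_cast hl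

theorem θ_pos (hl : 3 ≤ l) : 0 < θ l := by
  have := l_real hl
  unfold θ
  apply div_pos
  · linarith
  · nlinarith

theorem θ_le_one (hl : 3 ≤ l) : θ l ≤ 1 := by
  have := l_real hl
  unfold θ
  rw [div_le_one (by nlinarith)]
  nlinarith

theorem θ_mul (hl : 3 ≤ l) : θ l * (2 * l * (l - 1)) = 2 * l - 1 := by
  have := l_real hl
  unfold θ
  rw [div_mul_cancel₀]
  have : (0 : ℝ) < 2 * l * (l - 1) := by nlinarith
  exact this.ne'

theorem one_le_dd (hl : 3 ≤ l) {n : ℕ} (hn : 1 ≤ n) : 1 ≤ dd l n := by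
  unfold dd
  rw [Nat.one_le_floor_iff]
  exact Real.one_le_rpow (by exact_mod_cast hn) (θ_pos hl).le

theorem dd_le (hl : 3 ≤ l) {n : ℕ} (hn : 1 ≤ n) : dd l n ≤ n := by
  unfold dd
  have h1 : (n : ℝ) ^ θ l ≤ n := by
    calc (n : ℝ) ^ θ l ≤ (n : ℝ) ^ (1 : ℝ) :=
          Real.rpow_le_rpow_of_exponent_le (by exact_mod_cast hn) (θ_le_one hl)
      _ = n := Real.rpow_one _
  calc ⌊(n : ℝ) ^ θ l⌋₊ ≤ ⌊(n : ℝ)⌋₊ := Nat.floor_mono h1
    _ = n := Nat.floor_natCast n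

theorem dd_le_rpow (n : ℕ) : (dd l n : ℝ) ≤ (n : ℝ) ^ θ l :=
  Nat.floor_le (Real.rpow_nonneg (Nat.cast_nonneg n) _)

theorem rpow_le_dd (hl : 3 ≤ l) {n : ℕ} (hn : 1 ≤ n) : (n : ℝ) ^ θ l ≤ 2 * dd l n := by
  have h1 : (n : ℝ) ^ θ l < dd l n + 1 := Nat.lt_floor_add_one _
  have h2 : (1 : ℝ) ≤ dd l n := by exact_mod_cast one_le_dd hl hn
  linarith

theorem pp_of_pos {n : ℕ} (hn : 1 ≤ n) : pp l n = (dd l n : ℝ) / n := by
  unfold pp
  rw [if_neg (by omega)]

theorem pp_pos (hl : 3 ≤ l) (n : ℕ) : 0 < pp l n := by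
  rcases Nat.eq_zero_or_pos n with h | h
  · subst h
    simp [pp]
  · rw [pp_of_pos h]
    have h1 : (1 : ℝ) ≤ dd l n := by exact_mod_cast one_le_dd hl h
    have h2 : (1 : ℝ) ≤ n := by exact_mod_cast h
    positivity

theorem pp_le_one (hl : 3 ≤ l) (n : ℕ) : pp l n ≤ 1 := by
  rcases Nat.eq_zero_or_pos n with h | h
  · subst h
    simp [pp]
  · rw [pp_of_pos h, div_le_one (by exact_mod_cast h)]
    exact_mod_cast dd_le hl h

theorem n_mul_pp {n : ℕ} (hn : 1 ≤ n) : (n : ℝ) * pp l n = dd l n := by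
  rw [pp_of_pos hn]
  have h2 : (n : ℝ) ≠ 0 := by
    have : (1 : ℝ) ≤ n := by exact_mod_cast hn
    positivity
  field_simp

theorem add_le (hl : 3 ≤ l) {n : ℕ} (hn : 1 ≤ n) :
    ((l : ℝ) + dd l n) ≤ (l + 1) * dd l n := by
  have h1 : (1 : ℝ) ≤ dd l n := by exact_mod_cast one_le_dd hl hn
  have := l_real hl
  nlinarith

/-- a sequence bounded from some point on is bounded -/
theorem bounded_of {s : ℕ → ℝ} {N : ℕ} {B : ℝ} (h : ∀ n, N ≤ n → s n ≤ B) :
    ∃ B', ∀ n, s n ≤ B' := by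
  refine ⟨|B| + ∑ n ∈ range N, |s n|, fun n => ?_⟩
  have h0 : 0 ≤ ∑ n ∈ range N, |s n| := Finset.sum_nonneg fun _ _ => abs_nonneg _
  by_cases hn : N ≤ n
  · have := h n hn
    have := le_abs_self B
    linarith
  · have h1 : |s n| ≤ ∑ n ∈ range N, |s n| :=
      Finset.single_le_sum (f := fun n => |s n|) (fun _ _ => abs_nonneg _)
        (mem_range.mpr (by omega))
    have := le_abs_self (s n)
    have := abs_nonneg B
    linarith

/-- bounded normalised counts of graphs without isolated vertices -/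
theorem sp_bounded (hl : 3 ≤ l) {U : Type} [Finite U] [Nonempty U] (F : SimpleGraph U)
    (hF : ∀ a, ∃ b, F.Adj a b) (he : F.edgeSet.ncard ≤ Nat.card U - 1) :
    ∃ B : ℝ, ∀ n, sp F (GG l n) (pp l n) ≤ B := by
  set t := Nat.card U with ht
  have ht1 : 1 ≤ t := Nat.card_pos
  refine bounded_of (N := 2 * t) (B := (t : ℝ) * (l * (l + 1) ^ (t - 1)) * 2 ^ t) fun n hn => ?_
  have hn1 : 1 ≤ n := by omega
  have hnr : (1 : ℝ) ≤ n := by exact_mod_cast hn1
  have hd : (1 : ℝ) ≤ dd l n := by exact_mod_cast one_le_dd hl hn1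
  have hp := pp_pos hl n
  have h1 : (emb F (GG l n) : ℝ) ≤ (t : ℝ) * (l * ((l + 1) * dd l n) ^ (t - 1)) := by
    have h := emb_le (d := dd l n) (n := n) hl F hF
    have h' : (emb F (GG l n) : ℝ) ≤ (t : ℝ) * (l * ((l : ℝ) + dd l n) ^ (t - 1)) := by
      exact_mod_cast h
    refine h'.trans ?_
    have := add_le hl hn1
    gcongr
  have h2 : ((n : ℝ) / 2) ^ t ≤ (n.descFactorial t : ℝ) := by
    have h := Nat.pow_sub_le_descFactorial n t
    have h' : ((n + 1 - t : ℕ) : ℝ) ^ t ≤ (n.descFactorial t : ℝ) := by exact_mod_cast h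
    refine le_trans ?_ h'
    have h3 : (n : ℝ) / 2 ≤ ((n + 1 - t : ℕ) : ℝ) := by
      rw [Nat.cast_sub (by omega)]
      push_cast
      have : (2 * t : ℝ) ≤ n := by exact_mod_cast hn
      linarith
    gcongr
  have h3 : (pp l n) ^ (t - 1) ≤ (pp l n) ^ F.edgeSet.ncard :=
    pow_le_pow_of_le_one hp.le (pp_le_one hl n) he
  have hpos : 0 < (n.descFactorial t : ℝ) * pp l n ^ F.edgeSet.ncard := by
    have : 0 < ((n : ℝ) / 2) ^ t := by positivity
    have : 0 < (n.descFactorial t : ℝ) := by linarith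
    positivity
  rw [sp, ← ht, div_le_iff₀ hpos]
  refine h1.trans ?_
  have h4 : (t : ℝ) * (l * (l + 1) ^ (t - 1)) * 2 ^ t *
      (((n : ℝ) / 2) ^ t * (pp l n) ^ (t - 1)) ≤
      (t : ℝ) * (l * (l + 1) ^ (t - 1)) * 2 ^ t *
        ((n.descFactorial t : ℝ) * pp l n ^ F.edgeSet.ncard) := by
    gcongr
  refine le_trans ?_ h4
  have h5 : (2 : ℝ) ^ t * (((n : ℝ) / 2) ^ t * (pp l n) ^ (t - 1)) =
      n * (dd l n : ℝ) ^ (t - 1) := by
    rw [← n_mul_pp (l := l) hn1, div_pow, mul_pow]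
    have h6 : (n : ℝ) ^ t = n * (n : ℝ) ^ (t - 1) := by
      rw [← pow_succ', Nat.sub_add_cancel ht1]
    rw [h6]
    field_simp
  have h6 : (t : ℝ) * (l * (l + 1) ^ (t - 1)) * 2 ^ t *
      (((n : ℝ) / 2) ^ t * (pp l n) ^ (t - 1)) =
      (t : ℝ) * (l * (l + 1) ^ (t - 1)) * (n * (dd l n : ℝ) ^ (t - 1)) := by
    rw [← h5]
    ring
  rw [h6, mul_pow]
  have h7 : (t : ℝ) * (l * ((l + 1) ^ (t - 1) * (dd l n : ℝ) ^ (t - 1))) * 1 ≤
      (t : ℝ) * (l * ((l + 1) ^ (t - 1) * (dd l n : ℝ) ^ (t - 1))) * n := by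
    gcongr
  calc (t : ℝ) * (l * ((l + 1) ^ (t - 1) * (dd l n : ℝ) ^ (t - 1)))
      = (t : ℝ) * (l * ((l + 1) ^ (t - 1) * (dd l n : ℝ) ^ (t - 1))) * 1 := by ring
    _ ≤ _ := h7
    _ = _ := by ring

/-- (A) -/
theorem trees (hl : 3 ≤ l) (t : ℕ) (T : SimpleGraph (Fin t)) (hT : T.IsTree) :
    ∃ B : ℝ, ∀ n, sp T (GG l n) (pp l n) ≤ B := by
  classical
  have hcard := hT.card_edgeFinset
  rw [Fintype.card_fin] at hcard
  have he : T.edgeSet.ncard = t - 1 := by
    rw [← SimpleGraph.coe_edgeFinset, Set.ncard_coe_finset]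
    omega
  obtain h0 | h0 | h0 : t = 0 ∨ t = 1 ∨ 2 ≤ t := by omega
  · omega
  · subst h0
    refine ⟨1, fun n => ?_⟩
    have h1 : (emb T (GG l n) : ℝ) ≤ n := by
      have h2 : emb T (GG l n) ≤ Nat.card (Fin 1 → Fin n) := by
        unfold emb
        exact Nat.card_le_card_of_injective _ Subtype.val_injective
      have h3 : Nat.card (Fin 1 → Fin n) = n := by
        rw [Nat.card_eq_fintype_card, Fintype.card_fun, Fintype.card_fin, Fintype.card_fin, pow_one]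
      rw [h3] at h2
      exact_mod_cast h2
    rw [sp, he, Nat.card_eq_fintype_card, Fintype.card_fin, Nat.descFactorial_one, Nat.sub_self,
      pow_zero, mul_one]
    exact div_le_one_of_le₀ h1 (Nat.cast_nonneg n)
  · have : Nontrivial (Fin t) := Fin.nontrivial_iff_two_le.mpr h0
    have : Nonempty (Fin t) := ⟨⟨0, by omega⟩⟩
    refine sp_bounded hl T (fun a => hT.connected.preconnected.exists_adj_of_nontrivial a) ?_
    rw [Nat.card_eq_fintype_card, Fintype.card_fin, he]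

/-- bounded counts of theta graphs -/
theorem thetas (hl : 3 ≤ l) (k : ℕ) (hk : 1 ≤ k) :
    ∃ B : ℝ, ∀ n, sp (theta k l) (GG l n) (pp l n) ≤ B := by
  obtain h | h : k = 1 ∨ 2 ≤ k := by omega
  · subst h
    have : Nonempty (Bool ⊕ (Fin 1 × Fin (l - 1))) := ⟨Sum.inl true⟩
    refine sp_bounded hl _ (fun a => exists_one hl le_rfl a) ?_
    rw [card_theta_one hl, Nat.add_sub_cancel]
    exact ncard_theta_one hl
  · refine ⟨0, fun n => ?_⟩
    rw [sp, GG, emb_theta hl h]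
    simp

/-- (B) -/
theorem pathMoment_le (hl : 3 ≤ l) : ∃ B : ℝ, ∀ n : ℕ,
    pathMoment (GG l n) (l - 1) 2 ≤ B * ((n : ℝ) ^ (2 * l - 2) * pp l n ^ (2 * l - 2)) := by
  refine ⟨((l : ℝ) * (l * (l + 1) ^ (l - 1))) ^ 2, fun n => ?_⟩
  rcases Nat.eq_zero_or_pos n with h0 | h0
  · subst h0
    rw [pathMoment, Finset.univ_eq_empty, Finset.sum_empty]
    have := pp_pos hl 0
    positivity
  set S : ℝ := ∑ u : Fin n, ∑ v : Fin n, (pathCount (GG l n) (l - 1) u v : ℝ) with hS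
  have hterm : ∀ u v : Fin n, (pathCount (GG l n) (l - 1) u v : ℝ) ≤ S := by
    intro u v
    calc (pathCount (GG l n) (l - 1) u v : ℝ)
        ≤ ∑ v : Fin n, (pathCount (GG l n) (l - 1) u v : ℝ) :=
          Finset.single_le_sum (f := fun v => (pathCount (GG l n) (l - 1) u v : ℝ))
            (fun _ _ => Nat.cast_nonneg _) (mem_univ v)
      _ ≤ S := Finset.single_le_sum
            (f := fun u => ∑ v : Fin n, (pathCount (GG l n) (l - 1) u v : ℝ))
            (fun _ _ => Finset.sum_nonneg fun _ _ => Nat.cast_nonneg _) (mem_univ u)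
  have hS0 : 0 ≤ S := Finset.sum_nonneg fun _ _ => Finset.sum_nonneg fun _ _ => Nat.cast_nonneg _
  have h1 : pathMoment (GG l n) (l - 1) 2 ≤ S ^ 2 := by
    rw [pathMoment]
    calc ∑ u : Fin n, ∑ v ∈ univ.erase u, (pathCount (GG l n) (l - 1) u v : ℝ) ^ 2
        ≤ ∑ u : Fin n, ∑ v : Fin n, (pathCount (GG l n) (l - 1) u v : ℝ) ^ 2 := by
          refine Finset.sum_le_sum fun u _ => ?_
          exact Finset.sum_le_sum_of_subset_of_nonneg (erase_subset _ _)
            fun _ _ _ => by positivity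
      _ ≤ ∑ u : Fin n, ∑ v : Fin n, S * (pathCount (GG l n) (l - 1) u v : ℝ) := by
          refine Finset.sum_le_sum fun u _ => Finset.sum_le_sum fun v _ => ?_
          rw [sq]
          exact mul_le_mul_of_nonneg_right (hterm u v) (Nat.cast_nonneg _)
      _ = S ^ 2 := by
          rw [sq, hS]
          simp only [← Finset.mul_sum]
  have h2 : S ≤ (l : ℝ) * (l * (l + 1) ^ (l - 1)) * (dd l n : ℝ) ^ (l - 1) := by
    have h := sum_pathCount_le (d := dd l n) (n := n) hl (t := l - 1) (by omega)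
    have h' : S ≤ ((l - 1 : ℕ) + 1 : ℝ) * (l * ((l : ℝ) + dd l n) ^ (l - 1)) := by
      rw [hS]
      exact_mod_cast h
    have hl1 : ((l - 1 : ℕ) + 1 : ℝ) = l := by
      have : l - 1 + 1 = l := by omega
      exact_mod_cast this
    rw [hl1] at h'
    refine h'.trans ?_
    have := add_le hl h0
    calc (l : ℝ) * (l * ((l : ℝ) + dd l n) ^ (l - 1))
        ≤ (l : ℝ) * (l * ((l + 1) * dd l n) ^ (l - 1)) := by gcongr
      _ = _ := by rw [mul_pow]; ring
  have h3 : (n : ℝ) ^ (2 * l - 2) * pp l n ^ (2 * l - 2) = ((dd l n : ℝ) ^ (l - 1)) ^ 2 := by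
    rw [← mul_pow, n_mul_pp h0, ← pow_mul]
    congr 1
    omega
  rw [h3, ← mul_pow]
  exact h1.trans (pow_le_pow_left₀ hS0 h2 2)

/-! ### the cut distance -/

theorem volume_le (a : ℝ) : (volume {x : unitInterval | (x : ℝ) ≤ a}).toReal ≤ max a 0 := by
  by_cases ha : 0 ≤ a
  · rw [max_eq_left ha]
    by_cases h1 : a ≤ 1
    · have : {x : unitInterval | (x : ℝ) ≤ a} = Set.Iic (⟨a, ha, h1⟩ : unitInterval) := by
        ext x
        exact Iff.rfl
      rw [this, unitInterval.volume_Iic]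
      exact (ENNReal.toReal_ofReal ha).le
    · push Not at h1
      refine le_trans ?_ h1.le
      have h2 : volume {x : unitInterval | (x : ℝ) ≤ a} ≤ 1 := prob_le_one
      exact ENNReal.toReal_le_of_le_ofReal (by norm_num) (by simpa using h2)
  · push Not at ha
    have : {x : unitInterval | (x : ℝ) ≤ a} = ∅ := by
      ext x
      simp only [Set.mem_ofPred_eq, Set.mem_empty_iff_false, iff_false, not_le]
      exact lt_of_lt_of_le ha x.2.1
    rw [this]
    simp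

theorem kernel_zero (hl : 3 ≤ l) {n : ℕ} (x y : unitInterval)
    (h : ¬ (((x : ℝ) ≤ l / n ∧ (y : ℝ) ≤ (l + dd l n) / n) ∨
      ((x : ℝ) ≤ (l + dd l n) / n ∧ (y : ℝ) ≤ l / n))) :
    graphKernel (GG l n) (pp l n) x y = 0 := by
  unfold graphKernel
  rw [if_neg]
  rintro ⟨i, j, hi, hj, hadj⟩
  apply h
  have hn : 0 < n := i.pos
  have hnr : (0 : ℝ) < n := by exact_mod_cast hn
  have hle : ∀ (z : unitInterval) (k m : ℕ), ⌈(n : ℝ) * z⌉₊ = k + 1 → k < m → (z : ℝ) ≤ m / n := by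
    intro z k m hk hkm
    rw [le_div_iff₀ hnr, mul_comm]
    calc (n : ℝ) * z ≤ ⌈(n : ℝ) * z⌉₊ := Nat.le_ceil _
      _ = (k + 1 : ℕ) := by rw [hk]
      _ ≤ m := by exact_mod_cast hkm
  have hi' : i.val < l + dd l n := adj_lt hl hadj
  have hj' : j.val < l + dd l n := adj_lt hl hadj.symm
  rcases adj_small hl hadj with h1 | h1
  · left
    refine ⟨hle x _ _ hi h1, ?_⟩
    have := hle y _ _ hj hj'
    push_cast at this
    exact this
  · right
    refine ⟨?_, hle y _ _ hj h1⟩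
    have := hle x _ _ hi hi'
    push_cast at this
    exact this

theorem kernel_norm_le (hl : 3 ≤ l) {n : ℕ} (x y : unitInterval) :
    ‖graphKernel (GG l n) (pp l n) x y - 0‖ ≤ 1 / pp l n := by
  have := pp_pos hl n
  unfold graphKernel
  split_ifs
  · rw [sub_zero, Real.norm_of_nonneg (by positivity)]
  · rw [sub_zero, norm_zero]
    positivity

theorem cutNorm_nonneg (W : unitInterval → unitInterval → ℝ) : 0 ≤ cutNorm W := by
  refine Real.sSup_nonneg ?_
  rintro r ⟨S, T, -, -, rfl⟩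
  exact abs_nonneg _

theorem cutDist_nonneg {n : ℕ} (G : SimpleGraph (Fin n)) (p : ℝ)
    (κ : unitInterval → unitInterval → ℝ) : 0 ≤ cutDist G p κ :=
  Real.iInf_nonneg fun _ => cutNorm_nonneg _

theorem integral_le (hl : 3 ≤ l) {n : ℕ} (hn : 1 ≤ n) {S T : Set unitInterval}
    (hS : MeasurableSet S) (hT : MeasurableSet T) :
    |∫ z in S ×ˢ T, (graphKernel (GG l n) (pp l n) z.1 z.2 - 0)| ≤ 2 * l * (l + 1) / n := by
  set A : Set unitInterval := {x | (x : ℝ) ≤ l / n} with hA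
  set B : Set unitInterval := {x | (x : ℝ) ≤ (l + dd l n) / n} with hB
  set Q : Set (unitInterval × unitInterval) := (A ×ˢ B) ∪ (B ×ˢ A) with hQ
  have hnr : (1 : ℝ) ≤ n := by exact_mod_cast hn
  have hd : (1 : ℝ) ≤ dd l n := by exact_mod_cast one_le_dd hl hn
  have hp := pp_pos hl n
  have hzero : ∀ z : unitInterval × unitInterval, z ∉ Q →
      graphKernel (GG l n) (pp l n) z.1 z.2 - 0 = 0 := by
    intro z hz
    rw [sub_zero]
    apply kernel_zero hl
    intro h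
    apply hz
    rcases h with h | h
    · exact Or.inl ⟨h.1, h.2⟩
    · exact Or.inr ⟨h.1, h.2⟩
  have h1 : ∫ z in S ×ˢ T, (graphKernel (GG l n) (pp l n) z.1 z.2 - 0) =
      ∫ z in (S ×ˢ T) ∩ Q, (graphKernel (GG l n) (pp l n) z.1 z.2 - 0) := by
    refine setIntegral_eq_of_subset_of_forall_sdiff_eq_zero (hS.prod hT) Set.inter_subset_left ?_
    rintro z ⟨hz1, hz2⟩
    exact hzero z fun h => hz2 ⟨hz1, h⟩
  have hAv : (volume A).toReal ≤ l / n := by
    refine (volume_le _).trans (le_of_eq (max_eq_left ?_))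
    positivity
  have hBv : (volume B).toReal ≤ (l + dd l n) / n := by
    refine (volume_le _).trans (le_of_eq (max_eq_left ?_))
    positivity
  have hQv : volume.real Q ≤ 2 * ((l / n) * ((l + dd l n) / n)) := by
    rw [hQ]
    refine (measureReal_union_le _ _).trans ?_
    rw [Measure.real, Measure.real, Measure.volume_eq_prod, Measure.prod_prod, Measure.prod_prod,
      ENNReal.toReal_mul, ENNReal.toReal_mul]
    have h2 : (volume A).toReal * (volume B).toReal ≤ (l / n) * ((l + dd l n) / n) :=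
      mul_le_mul hAv hBv ENNReal.toReal_nonneg (by positivity)
    linarith
  rw [h1, ← Real.norm_eq_abs]
  have h3 : ‖∫ z in (S ×ˢ T) ∩ Q, (graphKernel (GG l n) (pp l n) z.1 z.2 - 0)‖ ≤
      1 / pp l n * volume.real ((S ×ˢ T) ∩ Q) :=
    norm_setIntegral_le_of_norm_le_const (measure_lt_top _ _)
      fun z _ => kernel_norm_le hl z.1 z.2
  refine h3.trans ?_
  have h4 : volume.real ((S ×ˢ T) ∩ Q) ≤ 2 * ((l / n) * ((l + dd l n) / n)) :=
    (measureReal_mono Set.inter_subset_right).trans hQv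
  have h5 := add_le hl hn
  calc 1 / pp l n * volume.real ((S ×ˢ T) ∩ Q)
      ≤ 1 / pp l n * (2 * ((l / n) * ((l + dd l n) / n))) := by gcongr
    _ ≤ 1 / pp l n * (2 * ((l / n) * (((l + 1) * dd l n) / n))) := by gcongr
    _ = 2 * l * (l + 1) / n := by
      rw [pp_of_pos hn]
      field_simp

theorem cutDist_le (hl : 3 ≤ l) {n : ℕ} (hn : 1 ≤ n) :
    cutDist (GG l n) (pp l n) (fun _ _ => 0) ≤ 2 * l * (l + 1) / n := by
  have hbdd : BddBelow (Set.range fun φ : {φ : unitInterval ≃ᵐ unitInterval //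
      MeasurePreserving φ volume volume} =>
        cutNorm fun x y => graphKernel (GG l n) (pp l n) x y - (fun _ _ => (0 : ℝ)) (φ.1 x) (φ.1 y)) := by
    refine ⟨0, ?_⟩
    rintro _ ⟨φ, rfl⟩
    exact cutNorm_nonneg _
  refine (ciInf_le hbdd ⟨MeasurableEquiv.refl _, MeasurePreserving.id _⟩).trans ?_
  refine csSup_le ⟨_, ∅, ∅, MeasurableSet.empty, MeasurableSet.empty, rfl⟩ ?_
  rintro r ⟨S, T, hS, hT, rfl⟩
  exact integral_le hl hn hS hT

/-- (C) -/
theorem cutDist_tendsto (hl : 3 ≤ l) :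
    Tendsto (fun n => cutDist (GG l n) (pp l n) (fun _ _ => 0)) atTop (𝓝 0) := by
  refine squeeze_zero' (Eventually.of_forall fun n => cutDist_nonneg _ _ _)
    (g := fun n : ℕ => 2 * l * (l + 1) / (n : ℝ)) ?_ ?_
  · filter_upwards [eventually_ge_atTop 1] with n hn
    exact cutDist_le hl hn
  · exact tendsto_const_div_atTop_nhds_zero_nat _

/-! ### the path moments -/

theorem θ_le_half (hl : 3 ≤ l) : θ l ≤ 1 / 2 := by
  have := l_real hl
  unfold θ
  rw [div_le_div_iff₀ (by nlinarith) (by norm_num)]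
  nlinarith

theorem add_dd_le (hl : 3 ≤ l) {n : ℕ} (hn : 2 * l ≤ n) : l + dd l n ≤ n := by
  have hnr : (4 : ℝ) ≤ n := by
    have : 4 ≤ n := by omega
    exact_mod_cast this
  have h1 : (dd l n : ℝ) ≤ n / 2 := by
    refine (dd_le_rpow n).trans ?_
    calc (n : ℝ) ^ θ l ≤ (n : ℝ) ^ (1 / 2 : ℝ) :=
          Real.rpow_le_rpow_of_exponent_le (by linarith) (θ_le_half hl)
      _ = √n := (Real.sqrt_eq_rpow _).symm
      _ ≤ n / 2 := by
        rw [Real.sqrt_le_left (by positivity)]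
        nlinarith
  have h2 : (2 * l : ℝ) ≤ n := by exact_mod_cast hn
  have h3 : ((l + dd l n : ℕ) : ℝ) ≤ n := by
    push_cast
    linarith
  exact_mod_cast h3

theorem dd_pow_le (hl : 3 ≤ l) (n : ℕ) : (dd l n : ℝ) ^ (2 * l * (l - 1)) ≤ (n : ℝ) ^ (2 * l - 1) := by
  have h1 : (dd l n : ℝ) ^ (2 * l * (l - 1)) ≤ ((n : ℝ) ^ θ l) ^ (2 * l * (l - 1)) :=
    pow_le_pow_left₀ (Nat.cast_nonneg _) (dd_le_rpow n) _
  refine h1.trans (le_of_eq ?_)
  rw [← Real.rpow_natCast, ← Real.rpow_mul (Nat.cast_nonneg n)]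
  have h2 : θ l * ((2 * l * (l - 1) : ℕ) : ℝ) = ((2 * l - 1 : ℕ) : ℝ) := by
    have h3 := θ_mul hl
    rw [Nat.cast_mul, Nat.cast_mul, Nat.cast_sub (by omega), Nat.cast_sub (by omega)]
    push_cast
    exact h3
  rw [h2, Real.rpow_natCast]

theorem pathMoment_ge (hl : 3 ≤ l) {n : ℕ} (hn : 2 * l ≤ n) (k : ℕ) :
    (dd l n : ℝ) ^ k ≤ pathMoment (GG l n) l k := by
  have h := add_dd_le hl hn
  set a : Fin n := ⟨0, by omega⟩ with ha
  set b : Fin n := ⟨l - 1, by omega⟩ with hb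
  have hab : b ∈ univ.erase a := by
    rw [mem_erase]
    refine ⟨?_, mem_univ _⟩
    intro h
    have := congrArg Fin.val h
    simp only [ha, hb] at this
    omega
  have h1 : (dd l n : ℝ) ≤ pathCount (GG l n) l a b := by
    exact_mod_cast pathCount_ge hl h
  calc (dd l n : ℝ) ^ k ≤ (pathCount (GG l n) l a b : ℝ) ^ k :=
        pow_le_pow_left₀ (Nat.cast_nonneg _) h1 _
    _ ≤ ∑ v ∈ univ.erase a, (pathCount (GG l n) l a v : ℝ) ^ k :=
        Finset.single_le_sum (f := fun v => (pathCount (GG l n) l a v : ℝ) ^ k)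
          (fun _ _ => by positivity) hab
    _ ≤ pathMoment (GG l n) l k :=
        Finset.single_le_sum
          (f := fun u => ∑ v ∈ univ.erase u, (pathCount (GG l n) l u v : ℝ) ^ k)
          (fun _ _ => Finset.sum_nonneg fun _ _ => by positivity) (mem_univ a)

/-- (D) fails for `k = 6 l` -/
theorem not_moment (hl : 3 ≤ l) (B : ℝ) : ∀ᶠ n : ℕ in atTop,
    B * ((n : ℝ) ^ (2 + 6 * l * (l - 1)) * pp l n ^ (6 * l * l)) <
      pathMoment (GG l n) l (6 * l) := by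
  filter_upwards [eventually_ge_atTop (2 * l), eventually_gt_atTop ⌈|B|⌉₊] with n hn hB
  refine lt_of_lt_of_le ?_ (pathMoment_ge hl hn (6 * l))
  have hn1 : 1 ≤ n := by omega
  have hnr : (1 : ℝ) ≤ n := by exact_mod_cast hn1
  have hn0 : (0 : ℝ) < n := by linarith
  have hd : (1 : ℝ) ≤ dd l n := by exact_mod_cast one_le_dd hl hn1
  have hBn : |B| < n := by
    calc |B| ≤ ⌈|B|⌉₊ := Nat.le_ceil _
      _ < n := by exact_mod_cast hB
  have e1 : 6 * l * l = 6 * l * (l - 1) + 6 * l := by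
    obtain ⟨m, rfl⟩ : ∃ m, l = m + 1 := ⟨l - 1, by omega⟩
    simp only [Nat.add_sub_cancel]
    ring
  have h1 : (n : ℝ) ^ (2 + 6 * l * (l - 1)) * pp l n ^ (6 * l * l) * (n : ℝ) ^ (6 * l) =
      (n : ℝ) ^ 2 * ((dd l n : ℝ) ^ (6 * l * (l - 1)) * (dd l n : ℝ) ^ (6 * l)) := by
    rw [← pow_add, ← e1, ← n_mul_pp (l := l) hn1, mul_pow, pow_add, e1, pow_add (n : ℝ)]
    ring
  have h2 : (dd l n : ℝ) ^ (6 * l * (l - 1)) ≤ (n : ℝ) ^ (6 * l - 3) := by
    have h3 := pow_le_pow_left₀ (by positivity) (dd_pow_le hl n) 3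
    rw [← pow_mul, ← pow_mul] at h3
    have e2 : 2 * l * (l - 1) * 3 = 6 * l * (l - 1) := by ring
    have e3 : (2 * l - 1) * 3 = 6 * l - 3 := by omega
    rwa [e2, e3] at h3
  have h4 : |B| * ((n : ℝ) ^ 2 * (dd l n : ℝ) ^ (6 * l * (l - 1))) < (n : ℝ) ^ (6 * l) := by
    have e4 : (n : ℝ) ^ (6 * l) = n * ((n : ℝ) ^ 2 * (n : ℝ) ^ (6 * l - 3)) := by
      rw [← pow_add, ← pow_succ']
      congr 1
      omega
    rw [e4]
    have h5 : (n : ℝ) ^ 2 * (dd l n : ℝ) ^ (6 * l * (l - 1)) ≤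
        (n : ℝ) ^ 2 * (n : ℝ) ^ (6 * l - 3) := by gcongr
    have h6 : 0 < (n : ℝ) ^ 2 * (n : ℝ) ^ (6 * l - 3) := by positivity
    calc |B| * ((n : ℝ) ^ 2 * (dd l n : ℝ) ^ (6 * l * (l - 1)))
        ≤ |B| * ((n : ℝ) ^ 2 * (n : ℝ) ^ (6 * l - 3)) :=
          mul_le_mul_of_nonneg_left h5 (abs_nonneg _)
      _ < n * ((n : ℝ) ^ 2 * (n : ℝ) ^ (6 * l - 3)) := mul_lt_mul_of_pos_right hBn h6
  have h7 : 0 < (dd l n : ℝ) ^ (6 * l) := by positivity
  have h8 : 0 < (n : ℝ) ^ (6 * l) := by positivity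
  have h9 : 0 ≤ (n : ℝ) ^ (2 + 6 * l * (l - 1)) * pp l n ^ (6 * l * l) := by
    have := pp_pos hl n
    positivity
  have h10 : B * ((n : ℝ) ^ (2 + 6 * l * (l - 1)) * pp l n ^ (6 * l * l)) ≤
      |B| * ((n : ℝ) ^ (2 + 6 * l * (l - 1)) * pp l n ^ (6 * l * l)) :=
    mul_le_mul_of_nonneg_right (le_abs_self B) h9
  refine lt_of_le_of_lt h10 ?_
  refine lt_of_mul_lt_mul_right ?_ h8.le
  rw [mul_assoc |B|, h1]
  calc |B| * ((n : ℝ) ^ 2 * ((dd l n : ℝ) ^ (6 * l * (l - 1)) * (dd l n : ℝ) ^ (6 * l)))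
      = (|B| * ((n : ℝ) ^ 2 * (dd l n : ℝ) ^ (6 * l * (l - 1)))) * (dd l n : ℝ) ^ (6 * l) := by
        ring
    _ < (n : ℝ) ^ (6 * l) * (dd l n : ℝ) ^ (6 * l) := mul_lt_mul_of_pos_right h4 h7
    _ = _ := by ring

/-! ### growth -/

theorem tendsto_dd (hl : 3 ≤ l) : Tendsto (fun n : ℕ => dd l n) atTop atTop :=
  (tendsto_nat_floor_atTop.comp (tendsto_rpow_atTop (θ_pos hl))).comp tendsto_natCast_atTop_atTop

theorem tendsto_np (hl : 3 ≤ l) : Tendsto (fun n : ℕ => (n : ℝ) * pp l n) atTop atTop := by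
  have h1 : Tendsto (fun n : ℕ => (dd l n : ℝ)) atTop atTop :=
    tendsto_natCast_atTop_atTop.comp (tendsto_dd hl)
  refine h1.congr' ?_
  filter_upwards [eventually_ge_atTop 1] with n hn
  exact (n_mul_pp hn).symm

theorem tendsto_paths (hl : 3 ≤ l) :
    Tendsto (fun n : ℕ => (n : ℝ) ^ (l - 1) * pp l n ^ l) atTop atTop := by
  have hlr := l_real hl
  have hexp : 0 < θ l * l - 1 := by
    have h1 := θ_mul hl
    have h2 : (θ l * l - 1) * (2 * (l - 1)) = 1 := by linarith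
    by_contra h
    push Not at h
    have : (θ l * l - 1) * (2 * ((l : ℝ) - 1)) ≤ 0 :=
      mul_nonpos_of_nonpos_of_nonneg h (by linarith)
    linarith
  have h1 : Tendsto (fun n : ℕ => (1 / 2 : ℝ) ^ l * (n : ℝ) ^ (θ l * l - 1)) atTop atTop := by
    refine Tendsto.const_mul_atTop (by positivity) ?_
    exact (tendsto_rpow_atTop hexp).comp tendsto_natCast_atTop_atTop
  refine tendsto_atTop_mono' _ ?_ h1
  filter_upwards [eventually_ge_atTop 1] with n hn
  have hnr : (1 : ℝ) ≤ n := by exact_mod_cast hn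
  have hn0 : (0 : ℝ) < n := by linarith
  have h2 : (n : ℝ) ^ (l - 1) * pp l n ^ l = (dd l n : ℝ) ^ l / n := by
    rw [← n_mul_pp (l := l) hn, mul_pow]
    have : (n : ℝ) ^ l = n * (n : ℝ) ^ (l - 1) := by
      rw [← pow_succ']
      congr 1
      omega
    rw [this]
    field_simp
  rw [h2, Real.rpow_sub hn0, Real.rpow_one, Real.rpow_mul hn0.le, Real.rpow_natCast]
  rw [mul_div_assoc', ← mul_pow]
  have h3 := rpow_le_dd hl hn
  have h4 : 0 ≤ (n : ℝ) ^ θ l := Real.rpow_nonneg hn0.le _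
  gcongr
  linarith

/-- The implication fails for every `l ≥ 3` and every `C > 0`: there are `p = p(n)` and graphs
`G_n`, with `n p → ∞` and `n^(l-1) p^l → ∞`, that satisfy (A), (B) and (C), and for which all the
sequences `s_p(H_{k,l}, G_n)`, `k ≥ 1`, are bounded, but for which the bound (D) fails. -/
theorem result (l : ℕ) (hl : 3 ≤ l) (C : ℝ) (hC : 0 < C) :
    ∃ (p : ℕ → ℝ) (G : (n : ℕ) → SimpleGraph (Fin n)),
      (∀ n, 0 < p n ∧ p n ≤ 1) ∧
      Tendsto (fun n : ℕ => (n : ℝ) * p n) atTop atTop ∧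
      Tendsto (fun n : ℕ => (n : ℝ) ^ (l - 1) * p n ^ l) atTop atTop ∧
      -- (A)
      (∀ (t : ℕ) (T : SimpleGraph (Fin t)), T.IsTree → ∃ B : ℝ, ∀ n, sp T (G n) (p n) ≤ B) ∧
      -- (B)
      (∃ B : ℝ, ∀ n : ℕ, pathMoment (G n) (l - 1) 2 ≤
        B * ((n : ℝ) ^ (2 * l - 2) * p n ^ (2 * l - 2))) ∧
      -- (C)
      (∃ κ : unitInterval → unitInterval → ℝ, IsKernel κ C ∧
        Tendsto (fun n => cutDist (G n) (p n) κ) atTop (𝓝 0)) ∧
      -- bounded counts of theta graphs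
      (∀ k : ℕ, 1 ≤ k → ∃ B : ℝ, ∀ n, sp (theta k l) (G n) (p n) ≤ B) ∧
      -- failure of (D)
      (∃ k : ℕ, 1 ≤ k ∧ ∀ B : ℝ, ∀ᶠ n : ℕ in atTop,
        B * ((n : ℝ) ^ (2 + k * (l - 1)) * p n ^ (k * l)) < pathMoment (G n) l k) := by
  refine ⟨pp l, GG l, fun n => ⟨pp_pos hl n, pp_le_one hl n⟩, tendsto_np hl, tendsto_paths hl,
    trees hl, pathMoment_le hl, ⟨fun _ _ => 0, ⟨measurable_const, fun _ _ => rfl,
      fun _ _ => ⟨le_rfl, hC.le⟩⟩, cutDist_tendsto hl⟩, thetas hl, 6 * l, by omega,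
      fun B => not_moment hl B⟩

end Pool.Agent.Results.MP_cf0832_co.ThetaMoments
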